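import Pool.Agent.helper99.ZP.Spec

set_option autoImplicit false

namespace Pool.Agent.ZP

open Finset
open Pool.Agent.helper32.Cant
open Pool.Agent.GA (nrm chi ch St sg flp Psi rc ph pot rpot far nc gf ncs gfs good mj om pick pat et kap mult)
open Pool.Agent.ZR
open scoped ENNReal

noncomputable section

lemma DIM_log (C s : ℝ) (hC : 0 < C) (hs : 0 < s) :
    ∃ Y : ℝ, 0 < Y ∧ ∀ y, Y ≤ y → C * Real.log y ^ 3 ≤ s * y := by
  have h1 := (Real.isLittleO_pow_log_id_atTop (n := 3)).bound (div_pos hs hC)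
  obtain ⟨Y, hY⟩ := Filter.eventually_atTop.mp h1
  refine ⟨max Y 1, by positivity, ?_⟩
  intro y hy
  have hy1 : 1 ≤ y := le_trans (le_max_right _ _) hy
  have h2 := hY y (le_trans (le_max_left _ _) hy)
  simp only [id, Real.norm_eq_abs] at h2
  rw [abs_of_nonneg (by linarith : 0 ≤ y)] at h2
  have h3 := le_trans (le_abs_self _) h2
  have h4 := mul_le_mul_of_nonneg_left h3 hC.le
  have h5 : C * (s / C * y) = s * y := by
    field_simp
  rwa [h5] at h4

lemma DIM_real (C s : ℝ) (hC : 0 < C) (hs : 0 < s) :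
    ∃ δ : ℝ, 0 < δ ∧ ∀ t, 0 < t → t < δ →
      t ^ s ≤ Real.exp (-(C * (Real.log (Real.log (1 / t))) ^ 3)) := by
  obtain ⟨Y, hY0, hY⟩ := DIM_log C s hC hs
  refine ⟨Real.exp (-Y), Real.exp_pos _, ?_⟩
  intro t ht htd
  have h1 : Real.log t < -Y := by
    rw [← Real.log_exp (-Y)]
    exact Real.log_lt_log ht htd
  have h2 : Real.log (1 / t) = -Real.log t := by
    rw [one_div, Real.log_inv]
  rw [h2, Real.rpow_def_of_pos ht]
  apply Real.exp_le_exp.mpr
  have h3 := hY (-Real.log t) (by linarith)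
  linarith

lemma DIM_ev (C s : ℝ) (hC : 0 < C) (hs : 0 < s) :
    (fun r : ℝ≥0∞ => r ^ s) ≤ᶠ[nhds 0] gz C := by
  obtain ⟨δ, hδ, h⟩ := DIM_real C s hC hs
  have hmem : Set.Iio (ENNReal.ofReal δ) ∈ nhds (0 : ℝ≥0∞) := Iio_mem_nhds (ENNReal.ofReal_pos.mpr hδ)
  filter_upwards [hmem] with r hr
  rcases eq_or_ne r 0 with h0 | h0
  · rw [h0, ENNReal.zero_rpow_of_pos hs]
    exact zero_le
  · have htop : r ≠ ⊤ := ne_top_of_lt hr
    obtain ⟨t, ht⟩ : ∃ t, t = r.toReal := ⟨_, rfl⟩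
    have ht0 : 0 < t := by
      rw [ht]
      exact ENNReal.toReal_pos h0 htop
    have hrt : r = ENNReal.ofReal t := by
      rw [ht, ENNReal.ofReal_toReal htop]
    have htd : t < δ := by
      rw [hrt] at hr
      exact (ENNReal.ofReal_lt_ofReal_iff hδ).mp hr
    unfold gz
    rw [← ht, hrt, ENNReal.ofReal_rpow_of_pos ht0]
    exact ENNReal.ofReal_le_ofReal (h t ht0 htd)

lemma DIM_ev2 (C s : ℝ) (hC : 0 < C) (hs : 0 < s) :
    (fun r : ℝ≥0∞ => r ^ (1 + s)) ≤ᶠ[nhds 0] gp C := by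
  obtain ⟨δ, hδ, h⟩ := DIM_real C s hC hs
  have hmem : Set.Iio (ENNReal.ofReal δ) ∈ nhds (0 : ℝ≥0∞) := Iio_mem_nhds (ENNReal.ofReal_pos.mpr hδ)
  filter_upwards [hmem] with r hr
  rcases eq_or_ne r 0 with h0 | h0
  · rw [h0, ENNReal.zero_rpow_of_pos (by linarith)]
    exact zero_le
  · have htop : r ≠ ⊤ := ne_top_of_lt hr
    obtain ⟨t, ht⟩ : ∃ t, t = r.toReal := ⟨_, rfl⟩
    have ht0 : 0 < t := by
      rw [ht]
      exact ENNReal.toReal_pos h0 htop
    have hrt : r = ENNReal.ofReal t := by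
      rw [ht, ENNReal.ofReal_toReal htop]
    have htd : t < δ := by
      rw [hrt] at hr
      exact (ENNReal.ofReal_lt_ofReal_iff hδ).mp hr
    unfold gp
    rw [← ht, hrt, ENNReal.ofReal_rpow_of_pos ht0, Real.rpow_add ht0, Real.rpow_one]
    exact ENNReal.ofReal_le_ofReal (mul_le_mul_of_nonneg_left (h t ht0 htd) ht0.le)

theorem DIM : DIM_stmt := by
  intro C hC
  constructor
  · intro E hE
    apply le_antisymm _ (zero_le)
    apply dimH_le
    intro d' hd'
    by_contra hcon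
    rw [not_le] at hcon
    have hpos : 0 < (d' : ℝ) := by exact_mod_cast hcon
    have h1 := MeasureTheory.Measure.mkMetric_mono (X := ℝ) (DIM_ev C d' hC hpos)
    have h2 := h1 E
    rw [hE] at h2
    have h3 : MeasureTheory.Measure.hausdorffMeasure (d' : ℝ) E ≤ 0 := h2
    rw [hd'] at h3
    simp at h3
  · intro P hP
    apply dimH_le
    intro d' hd'
    by_contra hcon
    rw [not_le] at hcon
    have hpos : 1 < (d' : ℝ) := by exact_mod_cast hcon
    have h1 := MeasureTheory.Measure.mkMetric_mono (X := ℝ × ℝ) (DIM_ev2 C ((d' : ℝ) - 1) hC (by linarith))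
    have h2 := h1 P
    rw [hP] at h2
    have he : 1 + ((d' : ℝ) - 1) = d' := by ring
    rw [he] at h2
    have h3 : MeasureTheory.Measure.hausdorffMeasure (d' : ℝ) P ≤ 0 := h2
    rw [hd'] at h3
    simp at h3

end

end Pool.Agent.ZP
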