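import Pool.Agent.helper99.ZP.Spec

set_option autoImplicit false

namespace Pool.Agent.ZP

open Finset
open Pool.Agent.helper32.Cant
open Pool.Agent.GA (nrm chi ch St sg flp Psi rc ph pot rpot far nc gf ncs gfs good mj om pick pat et kap mult)
open Pool.Agent.ZR
open scoped ENNReal

noncomputable section

/-- one piece of the set of the pairs -/
def FI2_pc (B : Set ℝ) (o lam : ℝ) : Set (ℝ × ℝ) :=
  {p | (o ≤ p.1 ∧ p.1 < o + lam) ∧ (lam ≤ p.2 ∧ p.2 < lam * 2) ∧ ∀ c ∈ cantorSet, p.1 + p.2 * (c - 1 / 2) ∈ B}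

theorem FI2 (hFN2 : FN2_stmt) (hGA2 : GA2_stmt) : FI2_stmt := by
  intro B hB
  have hsub : {p : ℝ × ℝ | 0 < p.2 ∧ ∀ c ∈ cantorSet, p.1 + p.2 * (c - 1 / 2) ∈ B} ⊆
      ⋃ l : ℤ, ⋃ m : ℤ, FI2_pc B ((m : ℝ) * (2 : ℝ) ^ l) ((2 : ℝ) ^ l) := by
    intro p hp
    obtain ⟨l, hl⟩ := exists_mem_Ico_zpow hp.1 (one_lt_two (α := ℝ))
    have hlam : (0 : ℝ) < (2 : ℝ) ^ l := by positivity
    rw [Set.mem_iUnion]
    refine ⟨l, ?_⟩
    rw [Set.mem_iUnion]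
    refine ⟨⌊p.1 / (2 : ℝ) ^ l⌋, ⟨?_, ?_⟩, ⟨hl.1, ?_⟩, hp.2⟩
    · have h1 := Int.floor_le (p.1 / (2 : ℝ) ^ l)
      rwa [le_div_iff₀ hlam] at h1
    · have h1 := Int.lt_floor_add_one (p.1 / (2 : ℝ) ^ l)
      rw [div_lt_iff₀ hlam] at h1
      linarith
    · have h2 := hl.2
      rwa [zpow_add_one₀ (by norm_num : (2 : ℝ) ≠ 0)] at h2
  apply MeasureTheory.measure_mono_null hsub
  rw [MeasureTheory.measure_iUnion_null_iff]
  intro l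
  rw [MeasureTheory.measure_iUnion_null_iff]
  intro m
  have hlam : (0 : ℝ) < (2 : ℝ) ^ l := by positivity
  apply hGA2 (10 ^ 14) (2 * 10 ^ 14) ((m : ℝ) * (2 : ℝ) ^ l) ((2 : ℝ) ^ l) (by norm_num) (by norm_num) hlam
  have hset : {p : ℝ × ℝ | ((m : ℝ) * (2 : ℝ) ^ l + (2 : ℝ) ^ l * p.1, (2 : ℝ) ^ l * (1 + p.2)) ∈
      FI2_pc B ((m : ℝ) * (2 : ℝ) ^ l) ((2 : ℝ) ^ l)} = Pb B ((m : ℝ) * (2 : ℝ) ^ l) ((2 : ℝ) ^ l) := by
    ext p
    constructor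
    · rintro ⟨⟨h1, h2⟩, ⟨h3, h4⟩, h5⟩
      simp only at h1 h2 h3 h4 h5
      refine ⟨?_, ?_, ?_, ?_, h5⟩
      · have := le_of_mul_le_mul_left (by linarith : (2 : ℝ) ^ l * 0 ≤ (2 : ℝ) ^ l * p.1) hlam
        exact this
      · have := lt_of_mul_lt_mul_left (by linarith : (2 : ℝ) ^ l * p.1 < (2 : ℝ) ^ l * 1) hlam.le
        exact this
      · have := le_of_mul_le_mul_left (by linarith : (2 : ℝ) ^ l * 1 ≤ (2 : ℝ) ^ l * (1 + p.2)) hlam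
        linarith
      · have := lt_of_mul_lt_mul_left h4 hlam.le
        linarith
    · rintro ⟨h1, h2, h3, h4, h5⟩
      refine ⟨⟨?_, ?_⟩, ⟨?_, ?_⟩, h5⟩
      · simp only
        nlinarith
      · simp only
        nlinarith
      · simp only
        nlinarith
      · simp only
        nlinarith
  rw [hset]
  exact hFN2 B hB _ _ hlam

end

end Pool.Agent.ZP
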