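import Pool.Agent.helper99.ZP.SpecO

set_option autoImplicit false

namespace Pool.Agent.ZPO

open scoped ENNReal NNReal

noncomputable section

lemma OPA_le (m : ℕ) : 3 ^ m ≤ 3 ^ (m + 2) := Nat.pow_le_pow_right (by norm_num) (by omega)

/-- the digits in the base `3^(m+2)` -/
def OPA_e {m : ℕ} (d : ℕ → Fin (3 ^ m)) : ℕ → Fin (3 ^ (m + 2)) := fun i => ⟨d i, lt_of_lt_of_le (d i).isLt (OPA_le m)⟩

lemma OPA_gm {m : ℕ} (d : ℕ → Fin (3 ^ m)) : gm d = Real.ofDigits (OPA_e d) := by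
  unfold gm Real.ofDigits Real.ofDigitsTerm OPA_e
  apply tsum_congr
  intro i
  push_cast
  rfl

lemma OPA_split {m : ℕ} (d : ℕ → Fin (3 ^ m)) (n : ℕ) :
    gm d = (∑ i ∈ Finset.range n, (d i : ℝ) * (((3 : ℝ) ^ (m + 2)) ^ (i + 1))⁻¹) +
      (((3 : ℝ) ^ (m + 2)) ^ n)⁻¹ * gm (fun i => d (i + n)) := by
  rw [OPA_gm, OPA_gm, Real.ofDigits_eq_sum_add_ofDigits _ n]
  unfold Real.ofDigitsTerm OPA_e
  push_cast
  rfl

lemma OPA_nonneg {m : ℕ} (d : ℕ → Fin (3 ^ m)) : 0 ≤ gm d := by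
  rw [OPA_gm]
  exact Real.ofDigits_nonneg _

lemma OPA_lt {m : ℕ} (d : ℕ → Fin (3 ^ m)) : gm d < 1 / 9 := by
  have hb : 1 < 3 ^ (m + 2) := Nat.one_lt_pow (by omega) (by norm_num)
  have h1 := Real.ofDigits_const_last_eq_one' hb
  unfold Real.ofDigits at h1
  have hM : (1 : ℝ) ≤ 3 ^ m := one_le_pow₀ (by norm_num)
  have hb2 : (3 : ℝ) ^ (m + 2) = 9 * 3 ^ m := by rw [pow_add]; ring
  have hcast : (((3 ^ (m + 2) - 1 : ℕ)) : ℝ) = 9 * 3 ^ m - 1 := by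
    rw [Nat.cast_sub hb.le]
    push_cast
    rw [hb2]
  obtain ⟨q, hq⟩ : ∃ q : ℝ, q = ((3 : ℝ) ^ m - 1) / (9 * 3 ^ m - 1) := ⟨_, rfl⟩
  have hden : (0 : ℝ) < 9 * 3 ^ m - 1 := by linarith
  have hq1 : q < 1 / 9 := by
    rw [hq, div_lt_div_iff₀ hden (by norm_num)]
    linarith
  have hle : gm d ≤ q * 1 := by
    rw [← h1, ← tsum_mul_left, OPA_gm]
    unfold Real.ofDigits
    apply Summable.tsum_le_tsum
    · intro i
      unfold Real.ofDigitsTerm OPA_e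
      simp only
      rw [hcast, ← mul_assoc]
      apply mul_le_mul_of_nonneg_right _ (by positivity)
      have h2 : q * (9 * 3 ^ m - 1) = 3 ^ m - 1 := by
        rw [hq]
        exact div_mul_cancel₀ _ hden.ne'
      rw [h2]
      have h3 : (d i : ℕ) + 1 ≤ 3 ^ m := (d i).isLt
      have h4 : (((d i : ℕ) + 1 : ℕ) : ℝ) ≤ ((3 ^ m : ℕ) : ℝ) := by exact_mod_cast h3
      push_cast at h4
      linarith
    · exact Real.summable_ofDigitsTerm
    · exact Summable.mul_left _ Real.summable_ofDigitsTerm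
  linarith

lemma OPA_one {m : ℕ} (d e : ℕ → Fin (3 ^ m)) (n : ℕ) (h : ∀ i < n, d i = e i) (hn : (e n : ℕ) < d n) :
    (((3 : ℝ) ^ (m + 2)) ^ (n + 1))⁻¹ / 2 ≤ gm d - gm e := by
  rw [OPA_split d (n + 1), OPA_split e (n + 1), Finset.sum_range_succ, Finset.sum_range_succ]
  have h1 : ∑ i ∈ Finset.range n, (d i : ℝ) * (((3 : ℝ) ^ (m + 2)) ^ (i + 1))⁻¹ =
      ∑ i ∈ Finset.range n, (e i : ℝ) * (((3 : ℝ) ^ (m + 2)) ^ (i + 1))⁻¹ :=
    Finset.sum_congr rfl fun i hi => by rw [h i (Finset.mem_range.mp hi)]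
  rw [h1]
  have h2 := OPA_nonneg (fun i => d (i + (n + 1)))
  have h3 := OPA_lt (fun i => e (i + (n + 1)))
  have h4 : ((e n : ℕ) : ℝ) + 1 ≤ ((d n : ℕ) : ℝ) := by exact_mod_cast hn
  have h5 : (0 : ℝ) < (((3 : ℝ) ^ (m + 2)) ^ (n + 1))⁻¹ := by positivity
  nlinarith

lemma OPA_abs {m : ℕ} (d e : ℕ → Fin (3 ^ m)) (n : ℕ) (h : ∀ i < n, d i = e i) (hn : d n ≠ e n) :
    (((3 : ℝ) ^ (m + 2)) ^ (n + 1))⁻¹ / 2 ≤ |gm d - gm e| := by
  have hn2 : (d n : ℕ) ≠ e n := fun hh => hn (Fin.ext hh)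
  rcases lt_or_gt_of_ne hn2 with hlt | hgt
  · rw [abs_sub_comm]
    exact le_trans (OPA_one e d n (fun i hi => (h i hi).symm) hlt) (le_abs_self _)
  · exact le_trans (OPA_one d e n h hgt) (le_abs_self _)

lemma OPA_first {m : ℕ} (d e : ℕ → Fin (3 ^ m)) (hde : d ≠ e) : ∃ n, (∀ i < n, d i = e i) ∧ d n ≠ e n := by
  classical
  have hex : ∃ n, d n ≠ e n := by
    by_contra hcon
    apply hde
    funext n
    by_contra h
    exact hcon ⟨n, h⟩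
  refine ⟨Nat.find hex, ?_, Nat.find_spec hex⟩
  intro i hi
  by_contra h
  exact Nat.find_min hex hi h

lemma OPA_inj {m : ℕ} (d e : ℕ → Fin (3 ^ m)) (h : gm d = gm e) : d = e := by
  by_contra hde
  obtain ⟨n, h1, h2⟩ := OPA_first d e hde
  have h3 := OPA_abs d e n h1 h2
  rw [h, sub_self, abs_zero] at h3
  have h5 : (0 : ℝ) < (((3 : ℝ) ^ (m + 2)) ^ (n + 1))⁻¹ := by positivity
  linarith

lemma OPA_hold {m : ℕ} (d e : ℕ → Fin (3 ^ m)) :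
    |Real.ofDigits d - Real.ofDigits e| ≤ (2 * 3 ^ m) * |gm d - gm e| ^ ((m : ℝ) / (m + 2)) := by
  have hr0 : 0 ≤ (m : ℝ) / (m + 2) := by positivity
  have hr1 : (m : ℝ) / (m + 2) ≤ 1 := by
    rw [div_le_one (by positivity)]
    linarith
  by_cases hde : d = e
  · rw [hde, sub_self, abs_zero]
    positivity
  · obtain ⟨n, h1, h2⟩ := OPA_first d e hde
    have h3 := OPA_abs d e n h1 h2
    have h4 := Real.abs_ofDigits_sub_ofDigits_le h1
    have h5 : (0 : ℝ) < (((3 : ℝ) ^ (m + 2)) ^ (n + 1))⁻¹ := by positivity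
    have h6 := Real.rpow_le_rpow (by positivity) h3 hr0
    have h7 : ((((3 : ℝ) ^ (m + 2)) ^ (n + 1))⁻¹ / 2) ^ ((m : ℝ) / (m + 2)) =
        ((3 ^ m) ^ (n + 1))⁻¹ / 2 ^ ((m : ℝ) / (m + 2)) := by
      rw [Real.div_rpow h5.le (by norm_num)]
      have e1 : (((3 : ℝ) ^ (m + 2)) ^ (n + 1)) ^ ((m : ℝ) / (m + 2)) = (3 ^ m) ^ (n + 1) := by
        rw [← pow_mul, ← pow_mul, ← Real.rpow_natCast, ← Real.rpow_mul (by norm_num), ← Real.rpow_natCast]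
        apply congrArg
        push_cast
        field_simp
      rw [Real.inv_rpow (by positivity), e1]
    have h8 : (2 : ℝ) ^ ((m : ℝ) / (m + 2)) ≤ 2 := by
      have := Real.rpow_le_rpow_of_exponent_le (by norm_num : (1 : ℝ) ≤ 2) hr1
      rwa [Real.rpow_one] at this
    have h9 : (0 : ℝ) < (2 : ℝ) ^ ((m : ℝ) / (m + 2)) := by positivity
    have h10 : ((3 ^ m : ℝ) ^ (n + 1))⁻¹ / 2 ≤ |gm d - gm e| ^ ((m : ℝ) / (m + 2)) := by
      refine le_trans ?_ (le_trans (le_of_eq h7.symm) h6)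
      exact div_le_div_of_nonneg_left (by positivity) h9 h8
    have h11 : (((3 ^ m : ℕ) : ℝ) ^ n)⁻¹ = (2 * 3 ^ m) * (((3 ^ m : ℝ) ^ (n + 1))⁻¹ / 2) := by
      push_cast
      rw [pow_succ]
      field_simp
    rw [h11] at h4
    exact le_trans h4 (mul_le_mul_of_nonneg_left h10 (by positivity))

open Classical in
/-- the map -/
def OPA_f (m : ℕ) (x : ℝ) : ℝ := if h : ∃ d : ℕ → Fin (3 ^ m), gm d = x then Real.ofDigits h.choose else 0

lemma OPA_fgm (m : ℕ) (d : ℕ → Fin (3 ^ m)) : OPA_f m (gm d) = Real.ofDigits d := by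
  have h : ∃ e : ℕ → Fin (3 ^ m), gm e = gm d := ⟨d, rfl⟩
  unfold OPA_f
  rw [dif_pos h, OPA_inj _ _ h.choose_spec]

theorem OPA : OPA_stmt := by
  intro m hm
  obtain ⟨r, hr⟩ : ∃ r : ℝ≥0, r = Real.toNNReal ((m : ℝ) / (m + 2)) := ⟨_, rfl⟩
  have hm0 : (0 : ℝ) < m := by exact_mod_cast hm
  have hr0 : (0 : ℝ) < (m : ℝ) / (m + 2) := by positivity
  have hrr : (r : ℝ) = (m : ℝ) / (m + 2) := by
    rw [hr, Real.coe_toNNReal _ hr0.le]
  have hrpos : 0 < r := by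
    rw [← NNReal.coe_pos, hrr]
    exact hr0
  have hH : HolderOnWith (2 * 3 ^ m) r (OPA_f m) (Sm m) := by
    rintro x ⟨d, rfl⟩ y ⟨e, rfl⟩
    rw [OPA_fgm, OPA_fgm, edist_dist, edist_dist, Real.dist_eq, Real.dist_eq, hrr,
      ENNReal.ofReal_rpow_of_nonneg (abs_nonneg _) hr0.le]
    have h1 := ENNReal.ofReal_le_ofReal (OPA_hold d e)
    rw [ENNReal.ofReal_mul (by positivity)] at h1
    refine le_trans h1 (le_of_eq ?_)
    apply congrArg (fun z => z * ENNReal.ofReal (|gm d - gm e| ^ ((m : ℝ) / (m + 2))))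
    have h2 : ((2 * 3 ^ m : ℝ≥0) : ℝ) = 2 * 3 ^ m := by push_cast; rfl
    rw [← h2, ENNReal.ofReal_coe_nnreal]
  have h1 := hH.dimH_image_le hrpos
  have hsub : Set.Ico (0 : ℝ) 1 ⊆ OPA_f m '' (Sm m) := by
    intro y hy
    have h3 : 1 < 3 ^ m := Nat.one_lt_pow (by omega) (by norm_num)
    have : NeZero (3 ^ m) := ⟨by omega⟩
    refine ⟨gm (Real.digits y (3 ^ m)), ⟨_, rfl⟩, ?_⟩
    rw [OPA_fgm, Real.ofDigits_digits h3 hy]
  have h2 := dimH_mono hsub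
  have h3 : dimH (Set.Ico (0 : ℝ) 1) = 1 := by
    rw [Real.dimH_of_nonempty_interior]
    · simp
    · rw [interior_Ico]
      exact ⟨1 / 2, by norm_num⟩
  rw [h3] at h2
  have h4 := le_trans h2 h1
  have h5 : (r : ℝ≥0∞) ≠ 0 := by
    rw [ENNReal.coe_ne_zero]
    exact hrpos.ne'
  rw [ENNReal.le_div_iff_mul_le (Or.inl h5) (Or.inl ENNReal.coe_ne_top), one_mul] at h4
  have h6 : ENNReal.ofReal ((m : ℝ) / (m + 2)) = (r : ℝ≥0∞) := by
    rw [hr]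
    rfl
  rw [h6]
  exact h4

end

end Pool.Agent.ZPO
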