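import Pool.Agent.helper5.ZP.OPA

set_option autoImplicit false

namespace Pool.Agent.ZPO

open scoped ENNReal NNReal

noncomputable section

/-- the set of the numbers which avoid `[4/9, 6/9)` under the multiplication by `b = 3^(m+2)` -/
def OPB_N (m : ℕ) : Set ℝ := {z | ∀ i : ℕ, Int.fract (((3 : ℝ) ^ (m + 2)) ^ i * z) ∉ Set.Ico (4 / 9 : ℝ) (6 / 9)}

lemma OPB_int (m : ℕ) (z : ℝ) (k : ℤ) (hz : z ∈ OPB_N m) : z + k ∈ OPB_N m := by
  intro i
  have h1 := hz i
  have h2 : ((3 : ℝ) ^ (m + 2)) ^ i * (z + k) = ((3 : ℝ) ^ (m + 2)) ^ i * z + ((((3 : ℤ) ^ (m + 2)) ^ i * k : ℤ) : ℝ) := by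
    push_cast
    ring
  rw [h2, Int.fract_add_intCast]
  exact h1

lemma OPB_mul (m : ℕ) (z : ℝ) (k : ℤ) (hz : z ∈ OPB_N m) : (3 : ℝ) ^ (m + 2) * z + k ∈ OPB_N m := by
  apply OPB_int
  intro i
  have h1 := hz (i + 1)
  rw [pow_succ, mul_assoc] at h1
  exact h1

lemma OPB_x {m : ℕ} (d : ℕ → Fin (3 ^ m)) (i : ℕ) : ∃ (k : ℤ) (e : ℕ → Fin (3 ^ m)),
    ((3 : ℝ) ^ (m + 2)) ^ i * gm d = k + gm e := by
  induction i with
  | zero => exact ⟨0, d, by simp⟩
  | succ i ih =>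
    obtain ⟨k, e, he⟩ := ih
    have h1 := OPA_split e 1
    rw [Finset.sum_range_one] at h1
    refine ⟨3 ^ (m + 2) * k + (e 0 : ℕ), fun j => e (j + 1), ?_⟩
    have hb : ((3 : ℝ) ^ (m + 2)) ≠ 0 := by positivity
    have h2 : (3 : ℝ) ^ (m + 2) * gm e = (e 0 : ℕ) + gm (fun j => e (j + 1)) := by
      rw [h1, zero_add, pow_one]
      field_simp
    rw [pow_succ, mul_comm (((3 : ℝ) ^ (m + 2)) ^ i) _, mul_assoc, he]
    push_cast
    linear_combination h2

lemma OPB_c1 (c : ℝ) (hc : c ∈ cantorSet) (i : ℕ) : ∃ (k : ℤ) (e : ℝ), e ∈ cantorSet ∧ (3 : ℝ) ^ i * c = k + e := by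
  induction i with
  | zero => exact ⟨0, c, hc, by simp⟩
  | succ i ih =>
    obtain ⟨k, e, he, h⟩ := ih
    rw [cantorSet_eq_union_halves] at he
    rcases he with ⟨x, hx, hxe⟩ | ⟨x, hx, hxe⟩
    · refine ⟨3 * k, x, hx, ?_⟩
      simp only at hxe
      rw [pow_succ, mul_comm ((3 : ℝ) ^ i) 3, mul_assoc, h, ← hxe]
      push_cast
      ring
    · refine ⟨3 * k + 2, x, hx, ?_⟩
      simp only at hxe
      rw [pow_succ, mul_comm ((3 : ℝ) ^ i) 3, mul_assoc, h, ← hxe]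
      push_cast
      ring

lemma OPB_c2 (c : ℝ) (hc : c ∈ cantorSet) : (0 ≤ c ∧ c ≤ 1 / 9) ∨ (2 / 9 ≤ c ∧ c ≤ 1 / 3) ∨ (2 / 3 ≤ c ∧ c ≤ 7 / 9) ∨
    (8 / 9 ≤ c ∧ c ≤ 1) := by
  have key : ∀ c ∈ cantorSet, (0 ≤ c ∧ c ≤ 1 / 3) ∨ (2 / 3 ≤ c ∧ c ≤ 1) := by
    intro c hc
    rw [cantorSet_eq_union_halves] at hc
    rcases hc with ⟨x, hx, rfl⟩ | ⟨x, hx, rfl⟩
    · have h := cantorSet_subset_unitInterval hx
      left
      constructor
      · simp only
        linarith [h.1]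
      · simp only
        linarith [h.2]
    · have h := cantorSet_subset_unitInterval hx
      right
      constructor
      · simp only
        linarith [h.1]
      · simp only
        linarith [h.2]
  rw [cantorSet_eq_union_halves] at hc
  rcases hc with ⟨x, hx, rfl⟩ | ⟨x, hx, rfl⟩
  · rcases key x hx with h | h
    · left
      constructor
      · simp only
        linarith [h.1]
      · simp only
        linarith [h.2]
    · right
      left
      constructor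
      · simp only
        linarith [h.1]
      · simp only
        linarith [h.2]
  · rcases key x hx with h | h
    · right
      right
      left
      constructor
      · simp only
        linarith [h.1]
      · simp only
        linarith [h.2]
    · right
      right
      right
      constructor
      · simp only
        linarith [h.1]
      · simp only
        linarith [h.2]

lemma OPB_fr (g c : ℝ) (hg0 : 0 ≤ g) (hg1 : g < 1 / 9) (hc : c ∈ cantorSet) : Int.fract (g + c) ∉ Set.Ico (4 / 9 : ℝ) (6 / 9) := by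
  rintro ⟨h1, h2⟩
  rcases lt_or_ge (g + c) 1 with h3 | h3
  · have h4 : Int.fract (g + c) = g + c := by
      rw [Int.fract_eq_self]
      refine ⟨?_, h3⟩
      have := (cantorSet_subset_unitInterval hc).1
      linarith
    rw [h4] at h1 h2
    rcases OPB_c2 c hc with h | h | h | h
    · linarith [h.2]
    · linarith [h.2]
    · linarith [h.1]
    · linarith [h.1]
  · have hc1 := (cantorSet_subset_unitInterval hc).2
    have h4 : Int.fract (g + c) = g + c - 1 := by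
      rw [Int.fract_eq_iff]
      refine ⟨by linarith, by linarith, 1, ?_⟩
      push_cast
      ring
    rw [h4] at h1 h2
    linarith

lemma OPB_sub (m : ℕ) (x c : ℝ) (hx : x ∈ Sm m) (hc : c ∈ cantorSet) : x + c ∈ OPB_N m := by
  obtain ⟨d, rfl⟩ := hx
  intro i
  obtain ⟨k, e, h1⟩ := OPB_x d i
  obtain ⟨l, c', hc', h2⟩ := OPB_c1 c hc ((m + 2) * i)
  rw [pow_mul] at h2
  rw [mul_add, h1, h2]
  have h3 : (k : ℝ) + gm e + (l + c') = gm e + c' + ((k + l : ℤ) : ℝ) := by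
    push_cast
    ring
  rw [h3, Int.fract_add_intCast]
  exact OPB_fr _ _ (OPA_nonneg e) (OPA_lt e) hc'

/-- the good indices -/
def OPB_Q (m : ℕ) : Finset ℕ := Finset.range (4 * 3 ^ m) ∪ Finset.Ico (6 * 3 ^ m) (9 * 3 ^ m)

lemma OPB_card (m : ℕ) : (OPB_Q m).card ≤ 7 * 3 ^ m := by
  unfold OPB_Q
  refine le_trans (Finset.card_union_le _ _) ?_
  rw [Finset.card_range, Nat.card_Ico]
  omega

lemma OPB_cov (m : ℕ) : OPB_N m ∩ Set.Ico 0 1 ⊆
    ⋃ q ∈ OPB_Q m, (fun z : ℝ => (3 : ℝ) ^ (m + 2) * z) ⁻¹' ((fun y : ℝ => y + (-(q : ℝ))) ⁻¹' (OPB_N m ∩ Set.Ico 0 1)) := by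
  rintro z ⟨hz, hz0, hz1⟩
  have hb2 : (3 : ℝ) ^ (m + 2) = 9 * 3 ^ m := by rw [pow_add]; ring
  have hM : (0 : ℝ) < 3 ^ m := by positivity
  have hbz : 0 ≤ (3 : ℝ) ^ (m + 2) * z := by positivity
  obtain ⟨q, hq⟩ : ∃ q : ℕ, q = ⌊(3 : ℝ) ^ (m + 2) * z⌋₊ := ⟨_, rfl⟩
  have hq1 : (q : ℝ) ≤ (3 : ℝ) ^ (m + 2) * z := by
    rw [hq]
    exact Nat.floor_le hbz
  have hq2 : (3 : ℝ) ^ (m + 2) * z < q + 1 := by
    rw [hq]
    exact Nat.lt_floor_add_one _
  rw [Set.mem_iUnion₂]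
  refine ⟨q, ?_, ?_⟩
  · have hlt : q < 9 * 3 ^ m := by
      have h3 : (q : ℝ) < ((9 * 3 ^ m : ℕ) : ℝ) := by
        push_cast
        nlinarith
      exact_mod_cast h3
    unfold OPB_Q
    rw [Finset.mem_union, Finset.mem_range, Finset.mem_Ico]
    by_contra hcon
    rw [not_or, not_lt] at hcon
    obtain ⟨hc1, hc2⟩ := hcon
    have hc3 : q < 6 * 3 ^ m := by
      by_contra hcc
      exact hc2 ⟨not_lt.mp hcc, hlt⟩
    have h0 := hz 0
    rw [pow_zero, one_mul, Int.fract_eq_self.mpr ⟨hz0, hz1⟩] at h0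
    apply h0
    have hc1' : (4 * 3 ^ m : ℝ) ≤ q := by exact_mod_cast hc1
    have hc3' : (q : ℝ) + 1 ≤ 6 * 3 ^ m := by exact_mod_cast hc3
    constructor
    · nlinarith
    · nlinarith
  · show (3 : ℝ) ^ (m + 2) * z + (-(q : ℝ)) ∈ OPB_N m ∩ Set.Ico 0 1
    refine ⟨?_, by linarith, by linarith⟩
    have h3 := OPB_mul m z (-(q : ℤ)) hz
    push_cast at h3
    exact h3

lemma OPB_v (m : ℕ) : MeasureTheory.volume (OPB_N m ∩ Set.Ico 0 1) = 0 := by
  obtain ⟨A, hA⟩ : ∃ A, A = OPB_N m ∩ Set.Ico 0 1 := ⟨_, rfl⟩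
  have hb2 : (3 : ℝ) ^ (m + 2) = 9 * 3 ^ m := by rw [pow_add]; ring
  have hb0 : (0 : ℝ) < 3 ^ (m + 2) := by positivity
  have hM : (0 : ℝ) < 3 ^ m := by positivity
  have hfin : MeasureTheory.volume A ≠ ⊤ := by
    have h1 : MeasureTheory.volume A ≤ MeasureTheory.volume (Set.Ico (0 : ℝ) 1) := by
      rw [hA]
      exact MeasureTheory.measure_mono Set.inter_subset_right
    rw [Real.volume_Ico] at h1
    exact ne_top_of_le_ne_top ENNReal.ofReal_ne_top h1
  have hle : MeasureTheory.volume A ≤ ∑ q ∈ OPB_Q m,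
      MeasureTheory.volume ((fun z : ℝ => (3 : ℝ) ^ (m + 2) * z) ⁻¹' ((fun y : ℝ => y + (-(q : ℝ))) ⁻¹' A)) := by
    refine le_trans (MeasureTheory.measure_mono ?_) (MeasureTheory.measure_biUnion_finset_le _ _)
    have := OPB_cov m
    rwa [← hA] at this
  have heach : ∀ q ∈ OPB_Q m,
      MeasureTheory.volume ((fun z : ℝ => (3 : ℝ) ^ (m + 2) * z) ⁻¹' ((fun y : ℝ => y + (-(q : ℝ))) ⁻¹' A)) =
      ENNReal.ofReal ((3 : ℝ) ^ (m + 2))⁻¹ * MeasureTheory.volume A := by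
    intro q _
    rw [Real.volume_preimage_mul_left hb0.ne', MeasureTheory.measure_preimage_add_right, abs_of_pos (by positivity)]
  rw [Finset.sum_congr rfl heach, Finset.sum_const, nsmul_eq_mul] at hle
  obtain ⟨w, hw⟩ : ∃ w, w = (MeasureTheory.volume A).toReal := ⟨_, rfl⟩
  have hw0 : 0 ≤ w := by
    rw [hw]
    exact ENNReal.toReal_nonneg
  have h1 := ENNReal.toReal_mono (by
    apply ENNReal.mul_ne_top (ENNReal.natCast_ne_top _)
    exact ENNReal.mul_ne_top ENNReal.ofReal_ne_top hfin) hle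
  rw [ENNReal.toReal_mul, ENNReal.toReal_mul, ENNReal.toReal_natCast, ENNReal.toReal_ofReal (by positivity), ← hw] at h1
  have h2 : ((OPB_Q m).card : ℝ) ≤ 7 * 3 ^ m := by exact_mod_cast OPB_card m
  have h3 : ((OPB_Q m).card : ℝ) * (((3 : ℝ) ^ (m + 2))⁻¹ * w) ≤ (7 * 3 ^ m) * (((3 : ℝ) ^ (m + 2))⁻¹ * w) :=
    mul_le_mul_of_nonneg_right h2 (by positivity)
  have h4 : (7 * 3 ^ m : ℝ) * (((3 : ℝ) ^ (m + 2))⁻¹ * w) = 7 / 9 * w := by
    rw [hb2]
    field_simp
  have hw1 : w = 0 := by linarith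
  rw [← hA]
  rw [hw, ENNReal.toReal_eq_zero_iff] at hw1
  rcases hw1 with h | h
  · exact h
  · exact absurd h hfin

lemma OPB_vol (m : ℕ) : MeasureTheory.volume (OPB_N m) = 0 := by
  have hsub : OPB_N m ⊆ ⋃ k : ℤ, (fun z : ℝ => z + (-(k : ℝ))) ⁻¹' (OPB_N m ∩ Set.Ico 0 1) := by
    intro z hz
    rw [Set.mem_iUnion]
    refine ⟨⌊z⌋, ?_, ?_, ?_⟩
    · have h1 := OPB_int m z (-⌊z⌋) hz
      push_cast at h1
      exact h1
    · have := Int.floor_le z
      simp only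
      linarith
    · have := Int.lt_floor_add_one z
      simp only
      linarith
  apply MeasureTheory.measure_mono_null hsub
  rw [MeasureTheory.measure_iUnion_null_iff]
  intro k
  rw [MeasureTheory.measure_preimage_add_right]
  exact OPB_v m

theorem OPB : OPB_stmt := by
  intro m
  have hsub : Sc m ⊆ (fun z : ℝ => z + (1 / 2 : ℝ)) ⁻¹' (OPB_N m) := by
    rintro y ⟨x, hx, c, hc, rfl⟩
    show x + (c - 1 / 2) + 1 / 2 ∈ OPB_N m
    have h1 : x + (c - 1 / 2) + 1 / 2 = x + c := by ring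
    rw [h1]
    exact OPB_sub m x c hx hc
  apply MeasureTheory.measure_mono_null hsub
  rw [MeasureTheory.measure_preimage_add_right]
  exact OPB_vol m

end

end Pool.Agent.ZPO
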